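import Mathlib
import Pool.Agent.H.MP_abf9c7_co.Lower

namespace Pool.Agent.Results.MP_abf9c7_co.Theta

open Filter Asymptotics

/-- `G` has a proper colouring from every assignment of lists of size `k`. -/
def Choosable {V : Type} (G : SimpleGraph V) (k : ℕ) : Prop :=
  ∀ L : V → Finset ℕ, (∀ v, (L v).card = k) →
    ∃ c : V → ℕ, (∀ v, c v ∈ L v) ∧ ∀ u v, G.Adj u v → c u ≠ c v

/-- The list chromatic number. -/
noncomputable def listChrom {V : Type} (G : SimpleGraph V) : ℕ := sInf {k | Choosable G k}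

/-- The join of two graphs. -/
def join {V W : Type} (G : SimpleGraph V) (H : SimpleGraph W) : SimpleGraph (V ⊕ W) :=
  (Gᶜ.sum Hᶜ)ᶜ

/-- The join of `K_t` with `K_{a,b}`. -/
def J (t a b : ℕ) : SimpleGraph (Fin t ⊕ Fin a ⊕ Fin b) :=
  join (⊤ : SimpleGraph (Fin t)) (completeBipartiteGraph (Fin a) (Fin b))

/-- The generalized Ohba number. -/
noncomputable def tau (s a b : ℕ) : ℕ :=
  sInf {t | listChrom (J t a b) - (J t a b).chromaticNumber.toNat ≤ s}

theorem chrom (t a b : ℕ) (ha : 1 ≤ a) (hb : 1 ≤ b) :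
    (J t a b).chromaticNumber.toNat = t + 2 := by
  have h1 : (J t a b).chromaticNumber ≤ (t + 2 : ℕ) := by
    have C : (J t a b).Coloring (Fin t ⊕ Bool) := SimpleGraph.Coloring.mk
      (Sum.map id (Sum.elim (fun _ => false) fun _ => true)) (by
        rintro (u | u | u) (v | v | v) h <;> simp [J, join] at h ⊢
        exact h)
    simpa using C.colorable.chromaticNumber_le
  have h2 : ((t + 2 : ℕ) : ℕ∞) ≤ (J t a b).chromaticNumber :=
    SimpleGraph.le_chromaticNumber_of_pairwise_adj (ι := Fin t ⊕ Bool) (by simp)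
      (Sum.map id fun x => if x then Sum.inl ⟨0, ha⟩ else Sum.inr ⟨0, hb⟩) (by
        rintro (u | _ | _) (v | _ | _) h <;> simp [J, join] at h ⊢
        exact h)
  rw [le_antisymm h1 h2, ENat.toNat_coe]

theorem Choosable.mono {V : Type} {G : SimpleGraph V} {j k : ℕ} (h : Choosable G j)
    (hjk : j ≤ k) : Choosable G k := by
  intro L hL
  choose L' h1 h2 using fun v => Finset.exists_subset_card_eq (s := L v) (n := j) (hL v ▸ hjk)
  obtain ⟨c, hc1, hc2⟩ := h L' h2
  exact ⟨c, fun v => h1 v (hc1 v), hc2⟩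

theorem nonempty {V : Type} [Fintype V] (G : SimpleGraph V) : {k | Choosable G k}.Nonempty := by
  classical
  refine ⟨Fintype.card V, fun L hL => ?_⟩
  obtain ⟨g, h1, h2⟩ := Pool.Agent.H.MP_abf9c7_co.sdr L Finset.univ fun i _ => (hL i).ge
  exact ⟨g, fun v => h2 v (Finset.mem_univ _),
    fun u v h e => h.ne (h1 (Finset.mem_univ u) (Finset.mem_univ v) e)⟩

theorem mem_iff (s t a b : ℕ) (ha : 1 ≤ a) (hb : 1 ≤ b) :
    listChrom (J t a b) - (J t a b).chromaticNumber.toNat ≤ s ↔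
      Choosable (J t a b) (t + s + 2) := by
  rw [chrom t a b ha hb]
  constructor
  · intro h
    exact Choosable.mono (Nat.sInf_mem (nonempty (J t a b))) (by unfold listChrom at h; omega)
  · intro h
    have : listChrom (J t a b) ≤ t + s + 2 := Nat.sInf_le h
    omega

theorem up (t a b s m : ℕ) (ha : 1 ≤ a) (ham : a ≤ m) (ht : a * m + (s + 1) ≤ t)
    (hb : b * a ^ (2 * s + 2) < m ^ (2 * s + 2)) : Choosable (J t a b) (t + s + 2) := by
  intro L hL
  obtain ⟨cT, cA, cB, h1, h2, h3, h4, h5, h6, h7⟩ := Pool.Agent.H.MP_abf9c7_co.upper t a b s m ha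
    ham ht hb (fun i => L (.inl i)) (fun i => L (.inr (.inl i))) (fun i => L (.inr (.inr i)))
    (fun _ => hL _) (fun _ => hL _) (fun _ => hL _)
  refine ⟨Sum.elim cT (Sum.elim cA cB), ?_, ?_⟩
  · rintro (u | u | u)
    exacts [h1 u, h2 u, h3 u]
  · rintro (u | u | u) (v | v | v) h
    · exact fun e => h.ne (congrArg _ (h4 e))
    · exact h5 u v
    · exact h6 u v
    · exact (h5 v u).symm
    · simp [J, join] at h
    · exact h7 u v
    · exact (h6 v u).symm
    · exact (h7 v u).symm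
    · simp [J, join] at h

theorem lo (t a b s : ℕ) (ha : s + 2 ≤ a) (h : Choosable (J t a b) (t + s + 2)) :
    b < (t + s + 2) ^ (2 * s + 2) := by
  by_contra hb
  obtain ⟨M, LA, LB, h1, h2, h3, h4⟩ := Pool.Agent.H.MP_abf9c7_co.lower t a b s ha (not_lt.1 hb)
  obtain ⟨c, hc1, hc2⟩ := h (Sum.elim M (Sum.elim LA LB)) (by
    rintro (u | u | u)
    exacts [h1 u, h2 u, h3 u])
  refine h4 (fun i => c (.inl i)) (fun i => c (.inr (.inl i))) (fun i => c (.inr (.inr i)))
    (fun _ => hc1 _) (fun _ => hc1 _) (fun _ => hc1 _) (fun i j e => ?_)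
    (fun i j => hc2 _ _ (by simp [J, join])) (fun i j => hc2 _ _ (by simp [J, join]))
    (fun i j => hc2 _ _ (by simp [J, join]))
  by_contra hne
  exact hc2 _ _ (by simpa [J, join] using hne) e

theorem result (s a : ℕ) (ha : s + 2 ≤ a) :
    (fun b : ℕ => (tau s a b : ℝ)) =Θ[atTop] fun b : ℕ => (b : ℝ) ^ (1 / (2 * (s : ℝ) + 2)) := by
  have ha1 : 1 ≤ a := by omega
  have h1 : ∀ b m, 1 ≤ b → a ≤ m → b * a ^ (2 * s + 2) < m ^ (2 * s + 2) →
      a * m + (s + 1) ∈
        {t | listChrom (J t a b) - (J t a b).chromaticNumber.toNat ≤ s} :=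
    fun b m hb hm h => (mem_iff s _ a b ha1 hb).2 (up _ a b s m ha1 hm le_rfl h)
  refine Pool.Agent.H.MP_abf9c7_co.theta s a ha1 (tau s a)
    (fun b m hb hm h => Nat.sInf_le (h1 b m hb hm h)) fun b hb => ?_
  refine lo _ a b s ha ((mem_iff s _ a b ha1 hb).1 (Nat.sInf_mem (s := {t | listChrom (J t a b) -
    (J t a b).chromaticNumber.toNat ≤ s}) ⟨_, h1 b (a * (b + 1)) hb
      (Nat.le_mul_of_pos_right _ (by omega)) ?_⟩))
  rw [mul_pow, mul_comm]
  refine Nat.mul_lt_mul_of_pos_left ?_ (by positivity) |>.trans_eq rfl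
  exact lt_of_lt_of_le (Nat.lt_succ_self b) (Nat.le_self_pow (by omega) _)

end Pool.Agent.Results.MP_abf9c7_co.Theta
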